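import Pool.Agent.X55.Pal.Pal3

set_option autoImplicit false

/-! # `n^2+1` at palindromes: the bounds -/

namespace Pool.Agent.X55.Pal

open Finset Filter Pool.Agent.H373R2.T7 Pool.Agent.H474R2.PG Pool.Agent.H476R2.Pal Pool.Agent.H861R2.Pal

lemma VV_eq (y : ℕ) : VV y = ∏ p ∈ (pz y).filter (fun p => ¬ p ∣ 10), (1 - (rho F p : ℝ) / p) := by
  unfold VV
  simp only [rho_F]

lemma VV_low : ∃ c : ℝ, 0 < c ∧ ∀ y : ℕ, 3 ≤ y → c / Real.log y ≤ VV y := by
  classical
  obtain ⟨c, hc, h⟩ := prod_low F F_irr (by rw [F_deg]; norm_num) (fun p hp => (F_rho4 p hp).trans (by norm_num))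
    (fun p hp _ => F_rholt p hp)
  refine ⟨c, hc, fun y hy => ?_⟩
  rw [VV_eq]
  convert h y hy

lemma VV_up : ∃ C : ℝ, 0 < C ∧ ∀ y : ℕ, 3 ≤ y → VV y ≤ C / Real.log y := by
  classical
  obtain ⟨c, hc, h⟩ := prod_up F F_irr (by rw [F_deg]; norm_num) (fun p hp => (F_rho4 p hp).trans (by norm_num))
  refine ⟨c, hc, fun y hy => ?_⟩
  rw [VV_eq]
  convert h y hy

lemma palin_lt {L n : ℕ} (h : n ∈ palin L) : n < 10 ^ (2 * L + 1) ∧ 10 ^ (2 * L) ≤ n := by
  unfold palin at h
  rw [mem_filter, mem_range] at h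
  exact ⟨h.1, h.2.1⟩

/-- few prime factors -/
lemma few {m y : ℕ} (hm : m ≠ 0) (h : ∀ p : ℕ, p.Prime → p ≤ y → ¬ p ∣ m) : y ^ m.primeFactorsList.length ≤ m := by
  conv_rhs => rw [← Nat.prod_primeFactorsList hm]
  have h1 : ∀ p ∈ m.primeFactorsList, y ≤ p := by
    intro p hp
    by_contra hlt
    exact h p (Nat.prime_of_mem_primeFactorsList hp) (by omega) (Nat.dvd_of_mem_primeFactorsList hp)
  exact List.pow_card_le_prod _ _ h1

/-- all prime factors of `n^2+1` exceed `X` -/
def Rough (X : ℝ) (n : ℕ) : Prop := ∀ p : ℕ, p.Prime → p ∣ n ^ 2 + 1 → X < p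

open Classical in
/-- **The bounds.** -/
theorem main_bounds : ∃ (r : ℕ) (c C : ℝ), 1 ≤ r ∧ 0 < c ∧ 0 < C ∧ ∀ᶠ L : ℕ in atTop,
    c * 10 ^ L / L ≤ (((palin L).filter (fun n => (n ^ 2 + 1).primeFactorsList.length ≤ r ∧
      Rough ((10 : ℝ) ^ ((L : ℝ) / r)) n)).card : ℝ) ∧
    (((palin L).filter (fun n => Rough ((10 : ℝ) ^ ((L : ℝ) / r)) n)).card : ℝ) ≤
      C * 10 ^ L / L := by
  obtain ⟨K, hK, hmain⟩ := main_asym (1 / 2) (by norm_num)
  obtain ⟨c, hc, hlow⟩ := VV_low
  obtain ⟨C, hC, hup⟩ := VV_up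
  have hKr : (1 : ℝ) ≤ K := by exact_mod_cast hK
  have hl10 : 2 ≤ Real.log 10 := by
    have h1 : Real.log 8 ≤ Real.log 10 := Real.log_le_log (by norm_num) (by norm_num)
    have h2 : Real.log 8 = 3 * Real.log 2 := by
      rw [show (8 : ℝ) = 2 ^ 3 by norm_num, Real.log_pow]; norm_num
    have := Real.log_two_gt_d9
    linarith
  refine ⟨12 * K, c / 3, 3 * C * (12 * K), by omega, by positivity, by positivity, ?_⟩
  have e1 : ∀ᶠ L : ℕ in atTop, (36 : ℝ) ≤ (10 : ℝ) ^ ((L : ℝ) / (12 * K : ℕ)) := by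
    have h1 : Tendsto (fun L : ℕ => (L : ℝ) / (12 * K : ℕ)) atTop atTop :=
      tendsto_natCast_atTop_atTop.atTop_div_const (by positivity)
    have h2 : Tendsto (fun x : ℝ => (10 : ℝ) ^ x) atTop atTop :=
      tendsto_rpow_atTop_of_base_gt_one 10 (by norm_num)
    exact (h2.comp h1).eventually_ge_atTop _
  filter_upwards [hmain, e1, eventually_ge_atTop (2 * K)] with L h1 h36 hL
  have hL1 : 1 ≤ L := by omega
  have hLr : (1 : ℝ) ≤ L := by exact_mod_cast hL1
  have hL2K : (2 * K : ℝ) ≤ L := by exact_mod_cast hL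
  set X : ℝ := (10 : ℝ) ^ ((L : ℝ) / (12 * K : ℕ)) with hX
  have hX0 : 0 < X := by positivity
  -- the first sieving limit
  set q := L / K with hq
  have hqK : q * K ≤ L := Nat.div_mul_le_self L K
  have hq1 : L < (q + 1) * K := by
    rw [hq, mul_comm]
    exact Nat.lt_mul_div_succ L (by omega)
  have hq2 : L ≤ 2 * K * q := by
    have h2 : 1 ≤ q := by
      rw [hq, Nat.one_le_div_iff (by omega)]
      omega
    nlinarith
  have hy5 : 5 ≤ 10 ^ q := by
    have h2 : 1 ≤ q := by
      rw [hq, Nat.one_le_div_iff (by omega)]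
      omega
    calc 5 ≤ 10 ^ 1 := by norm_num
      _ ≤ 10 ^ q := Nat.pow_le_pow_right (by norm_num) h2
  have hyK : (10 ^ q) ^ K ≤ 10 ^ L := by
    rw [← pow_mul]
    exact Nat.pow_le_pow_right (by norm_num) hqK
  constructor
  · -- lower bound
    have h2 := (abs_le.1 (h1 (10 ^ q) hy5 hyK)).1
    have h3 : 10 ^ L * VV (10 ^ q) ≤ cnt2 L (10 ^ q) := by linarith
    have h4 : c / (3 * L) ≤ VV (10 ^ q) := by
      refine le_trans ?_ (hlow (10 ^ q) (by omega))
      apply div_le_div_of_nonneg_left hc.le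
      · apply Real.log_pos
        exact_mod_cast (by omega : 1 < 10 ^ q)
      · exact log_le_of_pow hK (by omega) hyK
    have h5 : cnt2 L (10 ^ q) ≤ ((palin L).filter (fun n => (n ^ 2 + 1).primeFactorsList.length ≤ 12 * K ∧
        Rough X n)).card := by
      unfold cnt2
      apply card_le_card
      intro n hn
      rw [mem_filter] at hn ⊢
      obtain ⟨hn1, hn2⟩ := hn
      obtain ⟨hn3, -⟩ := palin_lt hn1
      refine ⟨hn1, ?_, ?_⟩
      · have h6 := few (m := n ^ 2 + 1) (by positivity) hn2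
        rw [← pow_mul] at h6
        have h7 : n ^ 2 + 1 ≤ 10 ^ (4 * L + 2) := by
          have : n ^ 2 + 1 ≤ (n + 1) ^ 2 := by nlinarith
          calc n ^ 2 + 1 ≤ (n + 1) ^ 2 := this
            _ ≤ (10 ^ (2 * L + 1)) ^ 2 := Nat.pow_le_pow_left (by omega) 2
            _ = 10 ^ (4 * L + 2) := by rw [← pow_mul]; congr 1; ring
        have h8 := (Nat.pow_le_pow_iff_right (by norm_num : 1 < 10)).1 (h6.trans h7)
        by_contra hcon
        push Not at hcon
        have h9 : q * (12 * K + 1) ≤ 4 * L + 2 := (Nat.mul_le_mul_left q hcon).trans h8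
        nlinarith
      · intro p hp hpd
        have h6 : 10 ^ q < p := by
          by_contra hlt
          exact hn2 p hp (by omega) hpd
        have h7 : ((10 : ℝ) ^ q) < p := by exact_mod_cast h6
        refine lt_of_le_of_lt ?_ h7
        rw [hX, ← Real.rpow_natCast]
        apply Real.rpow_le_rpow_of_exponent_le (by norm_num)
        rw [div_le_iff₀ (by positivity)]
        have h8 : (L : ℝ) ≤ 2 * K * q := by exact_mod_cast hq2
        push_cast
        have h9 : (0 : ℝ) ≤ q := Nat.cast_nonneg _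
        nlinarith
    have h6 : (cnt2 L (10 ^ q) : ℝ) ≤ (((palin L).filter (fun n => (n ^ 2 + 1).primeFactorsList.length ≤ 12 * K ∧
        Rough X n)).card : ℝ) := by exact_mod_cast h5
    refine le_trans ?_ (h3.trans h6)
    calc c / 3 * 10 ^ L / L = 10 ^ L * (c / (3 * L)) := by field_simp
      _ ≤ _ := mul_le_mul_of_nonneg_left h4 (by positivity)
  · -- upper bound
    set y := ⌊X⌋₊ with hy
    have hy36 : 36 ≤ y := Nat.le_floor (by exact_mod_cast h36)
    have hyX : (y : ℝ) ≤ X := Nat.floor_le hX0.le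
    have hyX2 : X < y + 1 := Nat.lt_floor_add_one X
    have hyL : y ^ K ≤ 10 ^ L := by
      have h2 : (y : ℝ) ^ K ≤ 10 ^ L := by
        calc (y : ℝ) ^ K ≤ X ^ K := pow_le_pow_left₀ (Nat.cast_nonneg _) hyX K
          _ = (10 : ℝ) ^ (((L : ℝ) / (12 * K : ℕ)) * K) := by
              rw [hX, ← Real.rpow_natCast, ← Real.rpow_mul (by norm_num)]
          _ ≤ (10 : ℝ) ^ (L : ℝ) := by
              apply Real.rpow_le_rpow_of_exponent_le (by norm_num)
              rw [div_mul_eq_mul_div, div_le_iff₀ (by positivity)]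
              push_cast
              nlinarith
          _ = 10 ^ L := Real.rpow_natCast _ _
      exact_mod_cast h2
    have h2 := (abs_le.1 (h1 y (by omega) hyL)).2
    have h3 := hup y (by omega)
    have hyr : (36 : ℝ) ≤ y := by exact_mod_cast hy36
    have hlogy : (L : ℝ) / (12 * K) ≤ Real.log y := by
      have h4 : Real.log X = (L : ℝ) / (12 * K : ℕ) * Real.log 10 := by rw [hX, Real.log_rpow (by norm_num)]
      have h5 : Real.log X ≤ 2 * Real.log y := by
        have h6 : X ≤ (y : ℝ) ^ 2 := by nlinarith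
        calc Real.log X ≤ Real.log ((y : ℝ) ^ 2) := Real.log_le_log hX0 h6
          _ = 2 * Real.log y := by rw [Real.log_pow]; norm_num
      have h7 : (L : ℝ) / (12 * K : ℕ) * 2 ≤ Real.log X := by
        rw [h4]
        exact mul_le_mul_of_nonneg_left hl10 (by positivity)
      push_cast at h7
      linarith
    have hlog0 : 0 < (L : ℝ) / (12 * K) := by positivity
    have h4 : VV y ≤ C * (12 * K) / L := by
      refine h3.trans ?_
      calc C / Real.log y ≤ C / ((L : ℝ) / (12 * K)) := div_le_div_of_nonneg_left hC.le hlog0 hlogy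
        _ = _ := by field_simp
    have h5 : ((palin L).filter (fun n => Rough X n)).card ≤ cnt2 L y := by
      unfold cnt2
      apply card_le_card
      intro n hn
      rw [mem_filter] at hn ⊢
      refine ⟨hn.1, fun p hp hpy hd => ?_⟩
      have h6 := hn.2 p hp hd
      have h7 : (p : ℝ) ≤ y := by exact_mod_cast hpy
      linarith
    have h6 : (((palin L).filter (fun n => Rough X n)).card : ℝ) ≤ cnt2 L y := by
      exact_mod_cast h5
    have h7 : (10 : ℝ) ^ L * VV y ≤ 10 ^ L * (C * (12 * K) / L) := mul_le_mul_of_nonneg_left h4 (by positivity)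
    calc (((palin L).filter (fun n => Rough X n)).card : ℝ) ≤ cnt2 L y := h6
      _ ≤ 3 * (10 ^ L * VV y) := by linarith
      _ ≤ 3 * (10 ^ L * (C * (12 * K) / L)) := by linarith
      _ = _ := by ring

end Pool.Agent.X55.Pal
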