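import Pool.Agent.X55.Pal.Pal1

set_option autoImplicit false

/-! # The values of a polynomial at palindromes: the product -/

namespace Pool.Agent.X55.Pal

open Finset Pool.Agent.H373R2.T7 Pool.Agent.H474R2.PG Polynomial

/-- the number of roots is at most the degree -/
lemma rho_le_deg (f : ℤ[X]) (p : ℕ) (hp : p.Prime) (hf : f.map (Int.castRingHom (ZMod p)) ≠ 0) :
    rho f p ≤ f.natDegree := by
  classical
  have : Fact p.Prime := ⟨hp⟩
  set g := f.map (Int.castRingHom (ZMod p)) with hg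
  have h1 : rho f p ≤ g.roots.toFinset.card := by
    unfold rho
    apply card_le_card_of_injOn (fun a : ℕ => (a : ZMod p))
    · intro a ha
      rw [mem_coe, mem_filter, mem_range] at ha
      rw [mem_coe, Multiset.mem_toFinset, mem_roots hf, IsRoot.def, hg, eval_map]
      have h2 : ((f.eval (a : ℤ) : ℤ) : ZMod p) = 0 := (ZMod.intCast_zmod_eq_zero_iff_dvd _ _).2 ha.2
      have h3 : f.eval₂ (Int.castRingHom (ZMod p)) ((a : ZMod p)) = ((f.eval (a : ℤ) : ℤ) : ZMod p) := by
        have h4 := (Polynomial.hom_eval₂ f (RingHom.id ℤ) (Int.castRingHom (ZMod p)) (a : ℤ))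
        rw [RingHom.comp_id] at h4
        rw [← Polynomial.eval₂_id]
        simp only [eq_intCast] at h4
        rw [h4]
        simp
      rw [h3, h2]
    · intro a ha b hb h
      rw [mem_coe, mem_filter, mem_range] at ha hb
      have h2 : a ≡ b [MOD p] := (ZMod.natCast_eq_natCast_iff _ _ _).1 h
      exact Nat.ModEq.eq_of_lt_of_lt h2 ha.1 hb.1
  refine h1.trans ((Multiset.toFinset_card_le _).trans ((card_roots' g).trans ?_))
  rw [hg]
  exact natDegree_map_le

lemma PR_eq (y : ℕ) : PR (y : ℝ) = pz y := by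
  ext p
  rw [PR, mem_filter, Nat.floor_natCast, mem_Icc, mem_pz]
  constructor
  · rintro ⟨⟨h1, h2⟩, h3⟩; exact ⟨h2, h3⟩
  · rintro ⟨h1, h2⟩; exact ⟨⟨h2.one_le, h1⟩, h2⟩

/-- upper bound for the product -/
lemma prod_up (f : ℤ[X]) (hf : Irreducible f) (hd : 0 < f.natDegree) (h4 : ∀ p : ℕ, p.Prime → rho f p ≤ 4) :
    ∃ C : ℝ, 0 < C ∧ ∀ y : ℕ, 3 ≤ y →
      ∏ p ∈ (pz y).filter (fun p => ¬ p ∣ 10), (1 - (rho f p : ℝ) / p) ≤ C / Real.log y := by
  obtain ⟨C, hC, h⟩ := Pool.Agent.H474R2.GE.mertens_rho f hf hd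
  refine ⟨Real.exp (C + 4), Real.exp_pos _, fun y hy => ?_⟩
  have hyr : (3 : ℝ) ≤ y := by exact_mod_cast hy
  have hlog : 0 < Real.log y := Real.log_pos (by linarith)
  have h1 := (abs_le.1 (h y hyr)).1
  have h2 : Sg (rho f) y ≤ ∑ p ∈ (pz y).filter (fun p => ¬ p ∣ 10), (rho f p : ℝ) / p + 4 := by
    unfold Sg
    rw [PR_eq, ← sum_filter_add_sum_filter_not (pz y) (fun p => ¬ p ∣ 10)]
    apply add_le_add le_rfl
    calc ∑ p ∈ (pz y).filter (fun p => ¬ ¬ p ∣ 10), (rho f p : ℝ) / p
        ≤ ∑ p ∈ ({2, 5} : Finset ℕ), (rho f p : ℝ) / p := by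
          apply sum_le_sum_of_subset_of_nonneg
          · intro p hp
            rw [mem_filter, not_not, mem_pz] at hp
            have h3 : p ∣ 2 * 5 := hp.2
            rcases (Nat.Prime.dvd_mul hp.1.2).1 h3 with h5 | h5
            · rw [(Nat.prime_dvd_prime_iff_eq hp.1.2 Nat.prime_two).1 h5]; simp
            · rw [(Nat.prime_dvd_prime_iff_eq hp.1.2 Nat.prime_five).1 h5]; simp
          · intro p _ _; positivity
      _ ≤ 4 := by
          rw [sum_pair (by norm_num)]
          have h5 : (rho f 2 : ℝ) ≤ 4 := by exact_mod_cast h4 2 Nat.prime_two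
          have h6 : (rho f 5 : ℝ) ≤ 4 := by exact_mod_cast h4 5 Nat.prime_five
          push_cast
          linarith
  calc ∏ p ∈ (pz y).filter (fun p => ¬ p ∣ 10), (1 - (rho f p : ℝ) / p)
      ≤ ∏ p ∈ (pz y).filter (fun p => ¬ p ∣ 10), Real.exp (-((rho f p : ℝ) / p)) := by
        apply prod_le_prod
        · intro p hp
          rw [mem_filter, mem_pz] at hp
          have hp0 : (0 : ℝ) < p := by exact_mod_cast hp.1.2.pos
          have h5 : (rho f p : ℝ) / p ≤ 1 := by
            rw [div_le_one hp0]; exact_mod_cast rho_le_self f p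
          linarith
        · intro p _
          have := Real.add_one_le_exp (-((rho f p : ℝ) / p))
          linarith
    _ = Real.exp (-(∑ p ∈ (pz y).filter (fun p => ¬ p ∣ 10), (rho f p : ℝ) / p)) := by
        rw [← Real.exp_sum, sum_neg_distrib]
    _ ≤ Real.exp (C + 4 - Real.log (Real.log y)) := by
        apply Real.exp_le_exp.2
        linarith
    _ = Real.exp (C + 4) / Real.log y := by
        rw [Real.exp_sub, Real.exp_log hlog]

lemma exp_low {x : ℝ} (h0 : 0 ≤ x) (h1 : x ≤ 1 / 2) : Real.exp (-(x + 2 * x ^ 2)) ≤ 1 - x := by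
  have h2 : 0 < 1 - x := by linarith
  have h3 : x / (1 - x) ≤ x + 2 * x ^ 2 := by
    rw [div_le_iff₀ h2]
    nlinarith [mul_nonneg (sq_nonneg x) (by linarith : (0 : ℝ) ≤ 1 - 2 * x)]
  have h4 : 1 + x / (1 - x) ≤ Real.exp (x / (1 - x)) := by
    have := Real.add_one_le_exp (x / (1 - x))
    linarith
  have h5 : 1 ≤ (1 - x) * Real.exp (x / (1 - x)) := by
    have h6 : (1 - x) * (1 + x / (1 - x)) = 1 := by field_simp; ring
    calc (1 : ℝ) = (1 - x) * (1 + x / (1 - x)) := h6.symm
      _ ≤ _ := mul_le_mul_of_nonneg_left h4 h2.le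
  calc Real.exp (-(x + 2 * x ^ 2)) ≤ Real.exp (-(x / (1 - x))) := Real.exp_le_exp.2 (by linarith)
    _ = (Real.exp (x / (1 - x)))⁻¹ := Real.exp_neg _
    _ ≤ 1 - x := by
        rw [inv_le_iff_one_le_mul₀ (Real.exp_pos _)]
        exact h5

lemma sum_inv_sq (N : ℕ) : ∑ n ∈ Icc 1 N, 1 / (n : ℝ) ^ 2 ≤ 2 := by
  have h : ∀ N : ℕ, 1 ≤ N → ∑ n ∈ Icc 1 N, 1 / (n : ℝ) ^ 2 ≤ 2 - 1 / (N : ℝ) := by
    intro N hN
    induction N, hN using Nat.le_induction with
    | base => norm_num
    | succ n hn ih =>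
      rw [sum_Icc_succ_top (by omega)]
      have hn0 : (0 : ℝ) < n := by exact_mod_cast hn
      have h1 : 1 / ((n + 1 : ℕ) : ℝ) ^ 2 ≤ 1 / n - 1 / ((n + 1 : ℕ) : ℝ) := by
        push_cast
        rw [div_sub_div _ _ hn0.ne' (by positivity), div_le_div_iff₀ (by positivity) (by positivity)]
        nlinarith
      linarith
  rcases Nat.eq_zero_or_pos N with h0 | h0
  · rw [h0]; simp
  · have h1 := h N h0
    have h2 : (0 : ℝ) ≤ 1 / (N : ℝ) := by positivity
    linarith

/-- lower bound for the product -/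
lemma prod_low (f : ℤ[X]) (hf : Irreducible f) (hd : 0 < f.natDegree) (h4 : ∀ p : ℕ, p.Prime → rho f p ≤ 4)
    (h1 : ∀ p : ℕ, p.Prime → ¬ p ∣ 10 → rho f p < p) :
    ∃ c : ℝ, 0 < c ∧ ∀ y : ℕ, 3 ≤ y →
      c / Real.log y ≤ ∏ p ∈ (pz y).filter (fun p => ¬ p ∣ 10), (1 - (rho f p : ℝ) / p) := by
  classical
  obtain ⟨C, hC, h⟩ := Pool.Agent.H474R2.GE.mertens_rho f hf hd
  refine ⟨(1 / 8 : ℝ) ^ 9 * Real.exp (-(C + 64)), by positivity, fun y hy => ?_⟩
  have hyr : (3 : ℝ) ≤ y := by exact_mod_cast hy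
  have hlog : 0 < Real.log y := Real.log_pos (by linarith)
  have h2 := (abs_le.1 (h y hyr)).2
  set P := (pz y).filter (fun p => ¬ p ∣ 10) with hP
  set F : ℕ → ℝ := fun p => if p ≤ 8 then 1 / 8 else Real.exp (-((rho f p : ℝ) / p + 2 * ((rho f p : ℝ) / p) ^ 2)) with hF
  have hstep : ∀ p ∈ P, F p ≤ 1 - (rho f p : ℝ) / p := by
    intro p hp
    rw [hP, mem_filter, mem_pz] at hp
    have hp0 : (0 : ℝ) < p := by exact_mod_cast hp.1.2.pos
    rw [hF]
    simp only
    split_ifs with h8
    · have h9 : (rho f p : ℝ) + 1 ≤ p := by exact_mod_cast h1 p hp.1.2 hp.2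
      have h8r : (p : ℝ) ≤ 8 := by exact_mod_cast h8
      rw [le_sub_iff_add_le, div_add_div _ _ (by norm_num) hp0.ne', div_le_one (by positivity)]
      linarith
    · apply exp_low (by positivity)
      rw [div_le_div_iff₀ hp0 (by norm_num)]
      have h9 : (rho f p : ℝ) ≤ 4 := by exact_mod_cast h4 p hp.1.2
      have h10 : (8 : ℝ) ≤ p := by exact_mod_cast (by omega : 8 ≤ p)
      linarith
  have hF0 : ∀ p, 0 ≤ F p := by
    intro p; rw [hF]; simp only; split_ifs <;> positivity
  refine le_trans ?_ (prod_le_prod (fun p _ => hF0 p) hstep)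
  rw [← prod_filter_mul_prod_filter_not P (fun p => p ≤ 8)]
  have e1 : (1 / 8 : ℝ) ^ 9 ≤ ∏ p ∈ P.filter (fun p => p ≤ 8), F p := by
    have h5 : ∏ p ∈ P.filter (fun p => p ≤ 8), F p = (1 / 8 : ℝ) ^ (P.filter (fun p => p ≤ 8)).card := by
      rw [← prod_const]
      apply prod_congr rfl
      intro p hp
      rw [mem_filter] at hp
      rw [hF]
      simp only [if_pos hp.2]
    rw [h5]
    apply pow_le_pow_of_le_one (by norm_num) (by norm_num)
    calc (P.filter (fun p => p ≤ 8)).card ≤ (range 9).card := by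
          apply card_le_card
          intro p hp
          rw [mem_filter] at hp
          rw [mem_range]
          omega
      _ = 9 := card_range 9
  have e2 : Real.exp (-(C + 64)) / Real.log y ≤ ∏ p ∈ P.filter (fun p => ¬ p ≤ 8), F p := by
    have h5 : ∏ p ∈ P.filter (fun p => ¬ p ≤ 8), F p =
        Real.exp (-(∑ p ∈ P.filter (fun p => ¬ p ≤ 8), ((rho f p : ℝ) / p + 2 * ((rho f p : ℝ) / p) ^ 2))) := by
      rw [← sum_neg_distrib, Real.exp_sum]
      apply prod_congr rfl
      intro p hp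
      rw [mem_filter] at hp
      rw [hF]
      simp only [if_neg hp.2]
    have h6 : ∑ p ∈ P.filter (fun p => ¬ p ≤ 8), ((rho f p : ℝ) / p + 2 * ((rho f p : ℝ) / p) ^ 2) ≤
        Real.log (Real.log y) + C + 64 := by
      calc ∑ p ∈ P.filter (fun p => ¬ p ≤ 8), ((rho f p : ℝ) / p + 2 * ((rho f p : ℝ) / p) ^ 2)
          ≤ ∑ p ∈ pz y, ((rho f p : ℝ) / p + 2 * ((rho f p : ℝ) / p) ^ 2) := by
            apply sum_le_sum_of_subset_of_nonneg
            · intro p hp
              rw [mem_filter, hP, mem_filter] at hp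
              exact hp.1.1
            · intro p _ _; positivity
        _ = Sg (rho f) y + 2 * ∑ p ∈ pz y, ((rho f p : ℝ) / p) ^ 2 := by
            rw [sum_add_distrib, ← mul_sum, Sg, PR_eq]
        _ ≤ (Real.log (Real.log y) + C) + 2 * 32 := by
            have h7 : ∑ p ∈ pz y, ((rho f p : ℝ) / p) ^ 2 ≤ 32 := by
              calc ∑ p ∈ pz y, ((rho f p : ℝ) / p) ^ 2 ≤ ∑ p ∈ pz y, 16 * (1 / (p : ℝ) ^ 2) := by
                    refine sum_le_sum fun p hp => ?_
                    rw [mem_pz] at hp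
                    rw [div_pow, ← mul_div_assoc, mul_one]
                    apply div_le_div_of_nonneg_right _ (by positivity)
                    have h9 : (rho f p : ℝ) ≤ 4 := by exact_mod_cast h4 p hp.2
                    have h10 : (0 : ℝ) ≤ rho f p := Nat.cast_nonneg _
                    nlinarith
                _ ≤ ∑ n ∈ Icc 1 y, 16 * (1 / (n : ℝ) ^ 2) := by
                    apply sum_le_sum_of_subset_of_nonneg
                    · intro p hp
                      rw [mem_pz] at hp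
                      rw [mem_Icc]
                      exact ⟨hp.2.one_le, hp.1⟩
                    · intro p _ _; positivity
                _ ≤ 32 := by
                    rw [← mul_sum]
                    have := sum_inv_sq y
                    linarith
            linarith
        _ = _ := by ring
    rw [h5]
    calc Real.exp (-(C + 64)) / Real.log y = Real.exp (-(C + 64) - Real.log (Real.log y)) := by
          rw [Real.exp_sub, Real.exp_log hlog]
      _ ≤ _ := by
          apply Real.exp_le_exp.2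
          linarith
  calc (1 / 8 : ℝ) ^ 9 * Real.exp (-(C + 64)) / Real.log y
      = (1 / 8 : ℝ) ^ 9 * (Real.exp (-(C + 64)) / Real.log y) := by ring
    _ ≤ _ := mul_le_mul e1 e2 (by positivity) (prod_nonneg fun p _ => hF0 p)

end Pool.Agent.X55.Pal
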