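import Pool.Agent.X55.Pal.Sv
import Pool.Agent.H476R2.Pal.BV2
import Pool.Agent.H861R2.Pal.T12

set_option autoImplicit false

/-! # Sieving the palindromes -/

namespace Pool.Agent.X55.Pal

open Finset Filter Pool.Agent.H373R2.T7 Pool.Agent.H476R2.Pal Pool.Agent.H861R2.Pal

/-- palindromes with `2 L + 1` digits and leading digit `l` -/
def pal (l L : ℕ) : Finset ℕ := (univ : Finset (Fin L → Fin 10)).image (pvl l L)

lemma pvl_inj' {l : ℕ} (hl : l ≤ 9) (L : ℕ) (hL : 1 ≤ L) : Function.Injective (pvl l L) := by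
  intro m m' h
  have h1 := pvl_inj L hL (show ((l, m) : ℕ × (Fin L → Fin 10)).1 ≤ 9 from hl)
    (show ((l, m') : ℕ × (Fin L → Fin 10)).1 ≤ 9 from hl) h
  exact (Prod.mk.inj h1).2

lemma pal_card {l : ℕ} (hl1 : 1 ≤ l) (hl : l ≤ 9) (L : ℕ) (hL : 1 ≤ L) (q h : ℕ) (hq : 1 ≤ q) :
    (((pal l L).filter (fun n => n ≡ h [MOD q])).card : ℝ) =
      cnt L q (h + (q - 1) * ((l - 1) * (10 ^ (2 * L) + 1))) := by
  rw [pal, filter_image, card_image_of_injective _ (pvl_inj' hl L hL), cnt]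
  congr 2
  apply filter_congr
  intro m _
  rw [pvl_pv hl1, modEq_shift hq]

lemma two_pow_le_card_divisors {d : ℕ} (hd : d ≠ 0) : 2 ^ d.primeFactors.card ≤ d.divisors.card := by
  rw [Nat.card_divisors hd, ← prod_const]
  apply prod_le_prod' 
  intro p hp
  have h1 : 1 ≤ d.factorization p :=
    (Nat.mem_primeFactors.1 hp).1.factorization_pos_of_dvd hd (Nat.mem_primeFactors.1 hp).2.1
  omega

lemma JJ_le_self (y : ℕ) : JJ y ≤ Nat.log 2 y + 1 := by
  unfold JJ
  have h1 : Nat.log 2 (Nat.log 2 y) ≤ Nat.log 2 y := Nat.log_le_self _ _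
  omega

open Classical in
/-- **Sieving the palindromes**: at most four classes for each prime. -/
theorem pal_fund (ε : ℝ) (hε : 0 < ε) : ∃ K : ℕ, 1 ≤ K ∧ ∀ B : ℕ, ∀ᶠ L : ℕ in atTop,
    ∀ y : ℕ, 2 ≤ y → y ^ K ≤ 10 ^ L → ∀ l : ℕ, 1 ≤ l → l ≤ 9 → ∀ Q : ℕ → ℕ → Prop, PerB Q 4 →
    |(((pal l L).filter (fun n => ∀ p ∈ pz y, ¬ p ∣ 10 → ¬ Q p n)).card : ℝ) -
      10 ^ L * ∏ p ∈ (pz y).filter (fun p => ¬ p ∣ 10), (1 - (nuB Q p : ℝ) / p)| ≤
      ε * (10 ^ L * ∏ p ∈ (pz y).filter (fun p => ¬ p ∣ 10), (1 - (nuB Q p : ℝ) / p)) +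
      10 ^ L / (L : ℝ) ^ B := by
  classical
  obtain ⟨K, K0, hK, hK0, hgen⟩ := gen 4 (by norm_num) ε hε
  refine ⟨2 * K, by omega, fun B => ?_⟩
  have e1 : ∀ᶠ L : ℕ in atTop, (K0 : ℝ) ≤ (10 : ℝ) ^ ((1 / 10 : ℝ) * L) := by
    have h1 : Tendsto (fun L : ℕ => (1 / 10 : ℝ) * (L : ℝ)) atTop atTop :=
      tendsto_natCast_atTop_atTop.const_mul_atTop (by norm_num)
    have h2 : Tendsto (fun x : ℝ => (10 : ℝ) ^ x) atTop atTop :=
      tendsto_rpow_atTop_of_base_gt_one 10 (by norm_num)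
    exact (h2.comp h1).eventually_ge_atTop _
  have e2 : ∀ᶠ L : ℕ in atTop, (7 * (K0 : ℝ)) ≤ L := tendsto_natCast_atTop_atTop.eventually_ge_atTop _
  filter_upwards [BV2 (B + 2), e1, e2, eventually_ge_atTop 1] with L hBV h1 h2 hL y hy hyK l hl1 hl9 Q hQ
  have hLr : (1 : ℝ) ≤ L := by exact_mod_cast hL
  have hL0 : (0 : ℝ) < L := by linarith
  set D : ℕ := ⌊(10 : ℝ) ^ ((3 / 5 : ℝ) * L)⌋₊ with hD
  -- the level
  have hlev : K0 * y ^ K ≤ D := by
    rw [hD]
    apply Nat.le_floor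
    push_cast
    have h3 : ((y : ℝ) ^ K) ≤ (10 : ℝ) ^ ((1 / 2 : ℝ) * L) := by
      have h4 : ((y : ℝ) ^ K) ^ 2 ≤ ((10 : ℝ) ^ ((1 / 2 : ℝ) * L)) ^ 2 := by
        rw [← pow_mul, mul_comm K 2]
        have h5 : ((10 : ℝ) ^ ((1 / 2 : ℝ) * L)) ^ 2 = (10 : ℝ) ^ L := by
          rw [← Real.rpow_natCast, ← Real.rpow_mul (by norm_num), ← Real.rpow_natCast]
          congr 1
          push_cast
          ring
        rw [h5]
        exact_mod_cast hyK
      exact le_of_pow_le_pow_left₀ (by norm_num) (by positivity) h4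
    calc (K0 : ℝ) * (y : ℝ) ^ K ≤ (10 : ℝ) ^ ((1 / 10 : ℝ) * L) * (10 : ℝ) ^ ((1 / 2 : ℝ) * L) :=
          mul_le_mul h1 h3 (by positivity) (by positivity)
      _ = (10 : ℝ) ^ ((3 / 5 : ℝ) * L) := by
          rw [← Real.rpow_add (by norm_num)]
          congr 1
          ring
  -- the worst residue class
  set g : ℕ → ℕ → ℝ := fun d r => |(((pal l L).filter (fun n => n ≡ r [MOD d])).card : ℝ) - 10 ^ L / d| with hg
  have hw : ∀ d : ℕ, ∃ r0 : ℕ, 1 ≤ d → ∀ r : ℕ, g d r ≤ g d r0 := by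
    intro d
    rcases Nat.eq_zero_or_pos d with h0 | h0
    · exact ⟨0, fun h => by omega⟩
    · obtain ⟨r0, -, hr0⟩ := exists_max_image (range d) (g d) ⟨0, mem_range.2 h0⟩
      refine ⟨r0, fun _ r => ?_⟩
      have h3 := hr0 (r % d) (mem_range.2 (Nat.mod_lt _ h0))
      have h4 : g d r = g d (r % d) := by
        rw [hg]
        simp only
        congr 3
        congr 1
        apply filter_congr
        intro n _
        constructor
        · intro h; exact h.trans (Nat.mod_modEq r d).symm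
        · intro h; exact h.trans (Nat.mod_modEq r d)
      rw [h4]
      exact h3
  choose r0 hr0 using hw
  have key := hgen 10 y hy (pal l L) (10 ^ L) (fun d => g d (r0 d)) (by positivity)
    (fun d => abs_nonneg _) (fun d hd1 _ _ r => hr0 d hd1 r) Q hQ
  refine key.trans ?_
  apply add_le_add le_rfl
  have h5 : ∑ d ∈ (Icc 1 (K0 * y ^ K)).filter (fun d => d.Coprime 10), ((4 : ℕ) : ℝ) ^ d.primeFactors.card * g d (r0 d) ≤
      10 ^ L / (L : ℝ) ^ (B + 2) := by
    refine le_trans ?_ (hBV (fun d => r0 d + (d - 1) * ((l - 1) * (10 ^ (2 * L) + 1))))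
    calc ∑ d ∈ (Icc 1 (K0 * y ^ K)).filter (fun d => d.Coprime 10), ((4 : ℕ) : ℝ) ^ d.primeFactors.card * g d (r0 d)
        ≤ ∑ d ∈ (Icc 1 D).filter (fun d => d.Coprime 10), ((4 : ℕ) : ℝ) ^ d.primeFactors.card * g d (r0 d) := by
          apply sum_le_sum_of_subset_of_nonneg
          · intro d hd
            rw [mem_filter, mem_Icc] at hd ⊢
            exact ⟨⟨hd.1.1, hd.1.2.trans hlev⟩, hd.2⟩
          · intro d _ _
            have : 0 ≤ g d (r0 d) := abs_nonneg _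
            positivity
      _ ≤ _ := by
          refine sum_le_sum fun d hd => ?_
          rw [mem_filter, mem_Icc] at hd
          have h6 : g d (r0 d) = |cnt L d (r0 d + (d - 1) * ((l - 1) * (10 ^ (2 * L) + 1))) - 10 ^ L / d| := by
            rw [hg]
            simp only
            rw [pal_card hl1 hl9 L hL d (r0 d) hd.1.1]
          rw [h6]
          apply mul_le_mul_of_nonneg_right _ (abs_nonneg _)
          have h7 := two_pow_le_card_divisors (show d ≠ 0 by omega)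
          have h8 : (2 : ℝ) ^ d.primeFactors.card ≤ d.divisors.card := by exact_mod_cast h7
          calc ((4 : ℕ) : ℝ) ^ d.primeFactors.card = ((2 : ℝ) ^ d.primeFactors.card) ^ 2 := by
                rw [← pow_mul, mul_comm, pow_mul]; norm_num
            _ ≤ _ := pow_le_pow_left₀ (by positivity) h8 2
  have h6 : (JJ y : ℝ) + 2 ≤ 7 * L := by
    have h7 : JJ y ≤ Nat.log 2 y + 1 := JJ_le_self y
    have h8 : y ≤ 10 ^ L := by
      refine le_trans ?_ hyK
      exact Nat.le_self_pow (by omega) y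
    have h9 : Nat.log 2 y ≤ 4 * L := by
      have h10 : y < 2 ^ (4 * L + 1) := by
        calc y ≤ 10 ^ L := h8
          _ ≤ 16 ^ L := Nat.pow_le_pow_left (by norm_num) _
          _ = 2 ^ (4 * L) := by rw [pow_mul]; norm_num
          _ < 2 ^ (4 * L + 1) := Nat.pow_lt_pow_right (by norm_num) (by omega)
      have h11 := Nat.log_lt_of_lt_pow (by omega : y ≠ 0) h10
      omega
    have h12 : JJ y + 2 ≤ 7 * L := by omega
    exact_mod_cast h12
  have hS0 : 0 ≤ ∑ d ∈ (Icc 1 (K0 * y ^ K)).filter (fun d => d.Coprime 10), ((4 : ℕ) : ℝ) ^ d.primeFactors.card * g d (r0 d) :=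
    sum_nonneg fun d _ => by
      have : 0 ≤ g d (r0 d) := abs_nonneg _
      positivity
  calc ((JJ y : ℝ) + 2) * (K0 * ∑ d ∈ (Icc 1 (K0 * y ^ K)).filter (fun d => d.Coprime 10),
        ((4 : ℕ) : ℝ) ^ d.primeFactors.card * g d (r0 d))
      ≤ (7 * L) * (K0 * (10 ^ L / (L : ℝ) ^ (B + 2))) := by gcongr
    _ = (7 * K0) * (10 ^ L / (L : ℝ) ^ (B + 1)) := by
        rw [pow_succ (L : ℝ) (B + 1)]
        field_simp
    _ ≤ L * (10 ^ L / (L : ℝ) ^ (B + 1)) := by gcongr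
    _ = 10 ^ L / (L : ℝ) ^ B := by
        rw [pow_succ]
        field_simp

end Pool.Agent.X55.Pal
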