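import Pool.Agent.X55.Pal.Pal2

set_option autoImplicit false

/-! # `n^2+1` at palindromes -/

namespace Pool.Agent.X55.Pal

open Finset Filter Pool.Agent.H373R2.T7 Pool.Agent.H474R2.PG Pool.Agent.H476R2.Pal Pool.Agent.H861R2.Pal
open scoped Polynomial

lemma log_le_of_pow {K L y : ℕ} (hK : 1 ≤ K) (hy : 1 ≤ y) (h : y ^ K ≤ 10 ^ L) : Real.log y ≤ 3 * L := by
  have h1 : y ≤ 10 ^ L := (Nat.le_self_pow (by omega) y).trans h
  have h2 : Real.log y ≤ Real.log ((10 : ℝ) ^ L) := by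
    apply Real.log_le_log (by exact_mod_cast hy)
    exact_mod_cast h1
  rw [Real.log_pow] at h2
  have h5 : Real.log 10 ≤ 3 := by
    have : Real.log 10 ≤ Real.log (2 ^ 4) := Real.log_le_log (by norm_num) (by norm_num)
    rw [Real.log_pow] at this
    have h6 := Real.log_two_lt_d9
    push_cast at this
    linarith
  have h6 : (0 : ℝ) ≤ L := Nat.cast_nonneg _
  nlinarith

lemma nu_rho (f : ℤ[X]) (p : ℕ) : nuB (fun p n => (p : ℤ) ∣ f.eval (n : ℤ)) p = rho f p := by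
  classical
  unfold nuB rho
  congr

open Classical in
/-- the asymptotic formula, for one leading digit -/
theorem asym (f : ℤ[X]) (hf : Irreducible f) (hd : 0 < f.natDegree) (h4 : ∀ p : ℕ, p.Prime → rho f p ≤ 4)
    (h1 : ∀ p : ℕ, p.Prime → ¬ p ∣ 10 → rho f p < p) (ε : ℝ) (hε : 0 < ε) :
    ∃ K : ℕ, 1 ≤ K ∧ ∀ᶠ L : ℕ in atTop, ∀ y : ℕ, 3 ≤ y → y ^ K ≤ 10 ^ L → ∀ l : ℕ, 1 ≤ l → l ≤ 9 →
    |(((pal l L).filter (fun n : ℕ => ∀ p ∈ pz y, ¬ p ∣ 10 → ¬ (p : ℤ) ∣ f.eval (n : ℤ))).card : ℝ) -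
      10 ^ L * ∏ p ∈ (pz y).filter (fun p => ¬ p ∣ 10), (1 - (rho f p : ℝ) / p)| ≤
      ε * (10 ^ L * ∏ p ∈ (pz y).filter (fun p => ¬ p ∣ 10), (1 - (rho f p : ℝ) / p)) := by
  obtain ⟨K, hK, hfund⟩ := pal_fund (ε / 2) (by positivity)
  obtain ⟨c, hc, hlow⟩ := prod_low f hf hd h4 h1
  refine ⟨K, hK, ?_⟩
  have e1 : ∀ᶠ L : ℕ in atTop, 6 / (ε * c) ≤ (L : ℝ) := tendsto_natCast_atTop_atTop.eventually_ge_atTop _
  filter_upwards [hfund 2, e1, eventually_ge_atTop 1] with L h2 h3 hL y hy hyK l hl1 hl9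
  have hLr : (1 : ℝ) ≤ L := by exact_mod_cast hL
  set V := ∏ p ∈ (pz y).filter (fun p => ¬ p ∣ 10), (1 - (rho f p : ℝ) / p) with hV
  have hper : PerB (fun p n => (p : ℤ) ∣ f.eval (n : ℤ)) 4 := by
    refine ⟨fun p n => ?_, fun p hp => by rw [nu_rho]; exact h4 p hp⟩
    have h5 : (p : ℤ) ∣ f.eval (n : ℤ) - f.eval ((n % p : ℕ) : ℤ) := by
      refine dvd_trans ?_ (Polynomial.sub_dvd_eval_sub _ _ f)
      have h6 : ((n : ℤ) - ((n % p : ℕ) : ℤ)) = p * ((n / p : ℕ) : ℤ) := by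
        have := Nat.mod_add_div n p
        zify at this
        push_cast
        linarith
      exact ⟨_, h6⟩
    exact (dvd_iff_dvd_of_dvd_sub h5)
  have key := h2 y (by omega) hyK l hl1 hl9 (fun p n => (p : ℤ) ∣ f.eval (n : ℤ)) hper
  simp only [nu_rho] at key
  rw [← hV] at key
  have key2 : |(((pal l L).filter (fun n : ℕ => ∀ p ∈ pz y, ¬ p ∣ 10 → ¬ (p : ℤ) ∣ f.eval (n : ℤ))).card : ℝ) -
      10 ^ L * V| ≤ ε / 2 * (10 ^ L * V) + 10 ^ L / (L : ℝ) ^ 2 := by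
    convert key
  refine key2.trans ?_
  have hlog : 0 < Real.log y := Real.log_pos (by exact_mod_cast (by omega : 1 < y))
  have h7 : c / (3 * L) ≤ V := by
    refine le_trans ?_ (hlow y hy)
    apply div_le_div_of_nonneg_left hc.le hlog
    exact log_le_of_pow hK (by omega) hyK
  have h8 : 1 / (L : ℝ) ^ 2 ≤ ε / 2 * V := by
    calc 1 / (L : ℝ) ^ 2 ≤ ε / 2 * (c / (3 * L)) := by
          rw [div_mul_div_comm, div_le_div_iff₀ (by positivity) (by positivity)]
          rw [div_le_iff₀ (by positivity)] at h3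
          nlinarith
      _ ≤ _ := mul_le_mul_of_nonneg_left h7 (by positivity)
  have h9 : (10 : ℝ) ^ L / (L : ℝ) ^ 2 ≤ ε / 2 * (10 ^ L * V) := by
    calc (10 : ℝ) ^ L / (L : ℝ) ^ 2 = 10 ^ L * (1 / (L : ℝ) ^ 2) := by ring
      _ ≤ 10 ^ L * (ε / 2 * V) := mul_le_mul_of_nonneg_left h8 (by positivity)
      _ = _ := by ring
  linarith

/-- the last digit -/
lemma pal_mod {l L n : ℕ} (hL : 1 ≤ L) (hn : n ∈ pal l L) : n % 10 = l % 10 := by
  rw [pal, mem_image] at hn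
  obtain ⟨m, -, rfl⟩ := hn
  have h1 : ∀ c : Fin L, 10 ∣ (m c : ℕ) * fr L c := by
    intro c
    apply Dvd.dvd.mul_left
    unfold fr
    have hc := c.2
    split_ifs with h
    · exact dvd_pow_self 10 (by omega)
    · exact dvd_add (dvd_pow_self 10 (by omega)) (dvd_pow_self 10 (by omega))
  have h2 : 10 ∣ ∑ c : Fin L, (m c : ℕ) * fr L c := dvd_sum fun c _ => h1 c
  have h3 : 10 ∣ l * 10 ^ (2 * L) := Dvd.dvd.mul_left (dvd_pow_self 10 (by omega)) l
  unfold pvl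
  rw [mul_add, mul_one]
  omega

lemma palin_union (L : ℕ) (hL : 1 ≤ L) : palin L = (Icc 1 9).biUnion (fun l => pal l L) := by
  rw [palin_eq L hL]
  ext n
  simp only [mem_image, mem_product, mem_Icc, mem_univ, and_true, Prod.exists, mem_biUnion, pal, true_and]
  constructor
  · rintro ⟨l, m, hl, h⟩; exact ⟨l, hl, m, h⟩
  · rintro ⟨l, hl, m, h⟩; exact ⟨l, m, hl, h⟩

lemma pal_disj (L : ℕ) (hL : 1 ≤ L) : ∀ l ∈ Icc 1 9, ∀ l' ∈ Icc 1 9, l ≠ l' → Disjoint (pal l L) (pal l' L) := by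
  intro l hl l' hl' hne
  rw [mem_Icc] at hl hl'
  rw [disjoint_left]
  intro n h1 h2
  have h3 := pal_mod hL h1
  have h4 := pal_mod hL h2
  omega

/-- the polynomial `X^2+1` -/
noncomputable def F : ℤ[X] := Polynomial.X ^ 2 + 1

lemma F_eval (n : ℤ) : F.eval n = n ^ 2 + 1 := by simp [F]

lemma F_deg : F.natDegree = 2 := by
  unfold F
  compute_degree!

lemma F_monic : F.Monic := by
  unfold F
  monicity!

lemma F_irr : Irreducible F := by
  rw [Polynomial.Monic.irreducible_iff_natDegree' F_monic]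
  refine ⟨fun h => ?_, fun g k hg hk hgk hdeg => ?_⟩
  · have := congrArg Polynomial.natDegree h
    rw [F_deg] at this
    simp at this
  · rw [F_deg] at hdeg
    norm_num at hdeg
    -- `k` is linear
    have h1 : k = Polynomial.X + Polynomial.C (k.coeff 0) := by
      have := hk.as_sum
      rw [hdeg] at this
      simpa [add_comm] using this
    have h2 := congrArg (Polynomial.eval (-(k.coeff 0))) hgk
    rw [Polynomial.eval_mul, F_eval, h1] at h2
    simp at h2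
    nlinarith [sq_nonneg (k.coeff 0)]

lemma F_rho4 (p : ℕ) (hp : p.Prime) : rho F p ≤ 2 := by
  have : Fact p.Prime := ⟨hp⟩
  have h := rho_le_deg F p hp (F_monic.map _).ne_zero
  rwa [F_deg] at h

lemma F_rholt (p : ℕ) (hp : p.Prime) : rho F p < p := by
  rcases Nat.lt_or_ge 2 p with h | h
  · exact (F_rho4 p hp).trans_lt h
  · have h2 : p = 2 := le_antisymm h hp.two_le
    subst h2
    have : rho F 2 = 1 := by
      unfold rho
      simp only [F_eval]
      decide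
    omega

/-- the number of roots of `a^2+1` modulo `p` -/
def nu (p : ℕ) : ℕ := ((range p).filter (fun a => p ∣ a ^ 2 + 1)).card

lemma rho_F (p : ℕ) : rho F p = nu p := by
  unfold rho nu
  congr 1
  apply filter_congr
  intro a _
  rw [F_eval]
  constructor
  · intro h; exact_mod_cast h
  · intro h; exact_mod_cast h

open Classical in
/-- the number of palindromes with `n^2+1` free of prime factors up to `y` -/
noncomputable def cnt2 (L y : ℕ) : ℕ := ((palin L).filter (fun n => ∀ p : ℕ, p.Prime → p ≤ y → ¬ p ∣ n ^ 2 + 1)).card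

/-- the product -/
noncomputable def VV (y : ℕ) : ℝ := ∏ p ∈ (pz y).filter (fun p => ¬ p ∣ 10), (1 - (nu p : ℝ) / p)

lemma not_dvd {l n : ℕ} (h : n % 10 = l) (hl : l = 4 ∨ l = 6) (p : ℕ) (hp : p.Prime) (hp10 : p ∣ 10) : ¬ p ∣ n ^ 2 + 1 := by
  have h3 : p ∣ 2 * 5 := hp10
  have h1 : (n ^ 2 + 1) % 10 = (l ^ 2 + 1) % 10 := by
    rw [← h]
    simp [Nat.add_mod, Nat.pow_mod]
  intro hd
  rcases (Nat.Prime.dvd_mul hp).1 h3 with h5 | h5
  · rw [(Nat.prime_dvd_prime_iff_eq hp Nat.prime_two).1 h5] at hd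
    rcases hl with rfl | rfl <;> omega
  · rw [(Nat.prime_dvd_prime_iff_eq hp Nat.prime_five).1 h5] at hd
    rcases hl with rfl | rfl <;> omega

/-- **the asymptotic formula** -/
theorem main_asym (ε : ℝ) (hε : 0 < ε) : ∃ K : ℕ, 1 ≤ K ∧ ∀ᶠ L : ℕ in atTop, ∀ y : ℕ, 5 ≤ y → y ^ K ≤ 10 ^ L →
    |(cnt2 L y : ℝ) - 2 * (10 ^ L * VV y)| ≤ ε * (2 * (10 ^ L * VV y)) := by
  classical
  obtain ⟨K, hK, h⟩ := asym F F_irr (by rw [F_deg]; norm_num) (fun p hp => (F_rho4 p hp).trans (by norm_num))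
    (fun p hp _ => F_rholt p hp) ε hε
  refine ⟨K, hK, ?_⟩
  filter_upwards [h, eventually_ge_atTop 1] with L hL1 hL y hy hyK
  set N : ℕ → ℕ := fun l => ((pal l L).filter (fun n => ∀ p : ℕ, p.Prime → p ≤ y → ¬ p ∣ n ^ 2 + 1)).card with hN
  have h1 : cnt2 L y = ∑ l ∈ Icc 1 9, N l := by
    unfold cnt2
    rw [palin_union L hL, filter_biUnion, card_biUnion]
    intro l hl l' hl' hne
    exact disjoint_filter_filter (pal_disj L hL l hl l' hl' hne)
  have h0 : ∀ l ∈ Icc 1 9, l ≠ 4 → l ≠ 6 → N l = 0 := by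
    intro l hl h4 h6
    rw [mem_Icc] at hl
    rw [hN]
    simp only
    rw [card_eq_zero, filter_eq_empty_iff]
    intro n hn hall
    have hm := pal_mod hL hn
    have hm' : n % 10 = l := by omega
    have e1 : (n ^ 2 + 1) % 10 = (l ^ 2 + 1) % 10 := by
      rw [← hm']
      simp [Nat.add_mod, Nat.pow_mod]
    have e2 := hall 2 Nat.prime_two (by omega)
    have e5 := hall 5 Nat.prime_five (by omega)
    have hl9 : l = 1 ∨ l = 2 ∨ l = 3 ∨ l = 5 ∨ l = 7 ∨ l = 8 ∨ l = 9 := by omega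
    rcases hl9 with rfl | rfl | rfl | rfl | rfl | rfl | rfl <;> omega
  have h2 : cnt2 L y = N 4 + N 6 := by
    rw [h1, ← sum_subset (show ({4, 6} : Finset ℕ) ⊆ Icc 1 9 by decide) (fun l hl hl' => by
      simp only [mem_insert, mem_singleton, not_or] at hl'
      exact h0 l hl hl'.1 hl'.2), sum_pair (by norm_num)]
  have h3 : ∀ l : ℕ, (l = 4 ∨ l = 6) → |(N l : ℝ) - 10 ^ L * VV y| ≤ ε * (10 ^ L * VV y) := by
    intro l hl
    have h4 := hL1 y (by omega) hyK l (by omega) (by omega)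
    have h5 : (pal l L).filter (fun n : ℕ => ∀ p ∈ pz y, ¬ p ∣ 10 → ¬ (p : ℤ) ∣ F.eval (n : ℤ)) =
        (pal l L).filter (fun n => ∀ p : ℕ, p.Prime → p ≤ y → ¬ p ∣ n ^ 2 + 1) := by
      apply filter_congr
      intro n hn
      have hm := pal_mod hL hn
      have hm' : n % 10 = l := by omega
      constructor
      · intro h6 p hp hpy hd
        by_cases h10 : p ∣ 10
        · exact not_dvd hm' hl p hp h10 hd
        · apply h6 p (mem_pz.2 ⟨hpy, hp⟩) h10
          rw [F_eval]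
          exact_mod_cast hd
      · intro h6 p hp _ hd
        rw [mem_pz] at hp
        apply h6 p hp.2 hp.1
        rw [F_eval] at hd
        exact_mod_cast hd
    rw [h5] at h4
    have h6 : ∏ p ∈ (pz y).filter (fun p => ¬ p ∣ 10), (1 - (rho F p : ℝ) / p) = VV y := by
      unfold VV
      simp only [rho_F]
    rw [h6] at h4
    exact h4
  have h4 := h3 4 (Or.inl rfl)
  have h6 := h3 6 (Or.inr rfl)
  rw [h2]
  push_cast
  rw [abs_le] at h4 h6 ⊢
  constructor <;> linarith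

end Pool.Agent.X55.Pal
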